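import Mathlib

/-!
Row LSK of the board ghk, part A: the abstract duality.
-/

set_option autoImplicit false

namespace Pool.Agent.H27.L1.H62.GHK

open MeasureTheory
open scoped ENNReal ComplexConjugate

/-- Cauchy-Schwarz -/
theorem csl {X : Type} [MeasurableSpace X] (μ : Measure X) {f g : X → ℝ≥0∞} (hf : Measurable f)
    (hg : Measurable g) :
    (∫⁻ x, f x * g x ∂μ) ^ 2 ≤ (∫⁻ x, f x ^ 2 ∂μ) * ∫⁻ x, g x ^ 2 ∂μ := by
  have h := ENNReal.lintegral_mul_le_Lp_mul_Lq μ Real.HolderConjugate.two_two hf.aemeasurable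
    hg.aemeasurable
  have e : ∀ a : ℝ≥0∞, (a ^ (1 / (2 : ℝ))) ^ 2 = a := by
    intro a
    rw [← ENNReal.rpow_natCast, ← ENNReal.rpow_mul]
    norm_num
  have h2 := pow_le_pow_left' h 2
  rw [mul_pow, e, e] at h2
  simpa using h2

theorem lpr {X : Type} [MeasurableSpace X] (μ ν : Measure X) [SFinite ν] (G : X × X → ℝ≥0∞)
    (hG : Measurable G) : ∫⁻ z, G z ∂(μ.prod ν) = ∫⁻ q, ∫⁻ p, G (q, p) ∂ν ∂μ :=
  lintegral_prod _ hG.aemeasurable

section

variable {Ω X : Type} [MeasurableSpace Ω] [MeasurableSpace X] (ν : Measure Ω) (μ : Measure X)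
  [IsFiniteMeasure ν] [IsFiniteMeasure μ] {φ ρ : Ω → X → ℂ}

theorem th_meas (hφ : Measurable (fun p : Ω × X => φ p.1 p.2))
    (hρ : Measurable (fun p : Ω × X => ρ p.1 p.2)) :
    StronglyMeasurable (fun z : X × X => ∫ u, φ u z.2 * conj (ρ u z.1) ∂ν) := by
  have h1 : Measurable (fun z : (X × X) × Ω => φ z.2 z.1.2 * conj (ρ z.2 z.1.1)) := by
    have e1 : Measurable (fun z : (X × X) × Ω => φ z.2 z.1.2) :=
      hφ.comp (by fun_prop : Measurable (fun z : (X × X) × Ω => (z.2, z.1.2)))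
    have e2 : Measurable (fun z : (X × X) × Ω => ρ z.2 z.1.1) :=
      hρ.comp (by fun_prop : Measurable (fun z : (X × X) × Ω => (z.2, z.1.1)))
    exact e1.mul (Complex.continuous_conj.measurable.comp e2)
  exact h1.stronglyMeasurable.integral_prod_right

omit [MeasurableSpace X] in
theorem th_bd {A : ℝ} (hA : ∀ u p, ‖φ u p‖ ≤ A) (hB : ∀ u p, ‖ρ u p‖ ≤ A) (q p : X) :
    ‖∫ u, φ u p * conj (ρ u q) ∂ν‖ ≤ A * A * ν.real Set.univ := by
  refine norm_integral_le_of_norm_le_const (Filter.Eventually.of_forall fun u => ?_)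
  rw [norm_mul, RCLike.norm_conj]
  exact mul_le_mul (hA _ _) (hB _ _) (norm_nonneg _) ((norm_nonneg _).trans (hA u p))

theorem absQ_int (hφ : Measurable (fun p : Ω × X => φ p.1 p.2))
    (hρ : Measurable (fun p : Ω × X => ρ p.1 p.2)) {A : ℝ} (hA : ∀ u p, ‖φ u p‖ ≤ A)
    (hB : ∀ u p, ‖ρ u p‖ ≤ A) :
    Integrable (fun z : (X × X) × (Ω × Ω) => (φ z.2.1 z.1.2 * conj (ρ z.2.1 z.1.1)) *
      conj (φ z.2.2 z.1.2 * conj (ρ z.2.2 z.1.1))) ((μ.prod μ).prod (ν.prod ν)) := by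
  have hm : Measurable (fun z : (X × X) × (Ω × Ω) => (φ z.2.1 z.1.2 * conj (ρ z.2.1 z.1.1)) *
      conj (φ z.2.2 z.1.2 * conj (ρ z.2.2 z.1.1))) := by
    have e1 : Measurable (fun z : (X × X) × (Ω × Ω) => φ z.2.1 z.1.2) :=
      hφ.comp (by fun_prop : Measurable (fun z : (X × X) × (Ω × Ω) => (z.2.1, z.1.2)))
    have e2 : Measurable (fun z : (X × X) × (Ω × Ω) => ρ z.2.1 z.1.1) :=
      hρ.comp (by fun_prop : Measurable (fun z : (X × X) × (Ω × Ω) => (z.2.1, z.1.1)))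
    have e3 : Measurable (fun z : (X × X) × (Ω × Ω) => φ z.2.2 z.1.2) :=
      hφ.comp (by fun_prop : Measurable (fun z : (X × X) × (Ω × Ω) => (z.2.2, z.1.2)))
    have e4 : Measurable (fun z : (X × X) × (Ω × Ω) => ρ z.2.2 z.1.1) :=
      hρ.comp (by fun_prop : Measurable (fun z : (X × X) × (Ω × Ω) => (z.2.2, z.1.1)))
    have c := Complex.continuous_conj.measurable
    exact (e1.mul (c.comp e2)).mul (c.comp (e3.mul (c.comp e4)))
  refine Integrable.of_bound hm.aestronglyMeasurable (A * A * (A * A))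
    (Filter.Eventually.of_forall fun z => ?_)
  have hA0 : 0 ≤ A := (norm_nonneg _).trans (hA z.2.1 z.1.2)
  rw [norm_mul, RCLike.norm_conj, norm_mul, norm_mul, RCLike.norm_conj, RCLike.norm_conj]
  have h1 := mul_le_mul (hA z.2.1 z.1.2) (hB z.2.1 z.1.1) (norm_nonneg _) hA0
  have h2 := mul_le_mul (hA z.2.2 z.1.2) (hB z.2.2 z.1.1) (norm_nonneg _) hA0
  exact mul_le_mul h1 h2 (by positivity) (by positivity)

omit [MeasurableSpace Ω] in
theorem absQ_mul (w : Ω × Ω) : ∫ z : X × X, (φ w.1 z.2 * conj (ρ w.1 z.1)) *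
        conj (φ w.2 z.2 * conj (ρ w.2 z.1)) ∂(μ.prod μ) =
        (∫ p, φ w.1 p * conj (φ w.2 p) ∂μ) * conj (∫ q, ρ w.1 q * conj (ρ w.2 q) ∂μ) := by
  rw [← integral_conj, mul_comm, ← integral_prod_mul]
  refine integral_congr_ae (Filter.Eventually.of_forall fun z => ?_)
  simp only [map_mul, Complex.conj_conj]
  ring

theorem absQ_int2 (hφ : Measurable (fun p : Ω × X => φ p.1 p.2))
    (hρ : Measurable (fun p : Ω × X => ρ p.1 p.2)) {A : ℝ} (hA : ∀ u p, ‖φ u p‖ ≤ A)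
    (hB : ∀ u p, ‖ρ u p‖ ≤ A) :
    Integrable (fun w : Ω × Ω => (∫ p, φ w.1 p * conj (φ w.2 p) ∂μ) *
        conj (∫ q, ρ w.1 q * conj (ρ w.2 q) ∂μ)) (ν.prod ν) :=
  (absQ_int ν μ hφ hρ hA hB).integral_prod_right.congr
    (Filter.Eventually.of_forall fun w => absQ_mul μ w)

/-- the quadratic form -/
theorem absQ (hφ : Measurable (fun p : Ω × X => φ p.1 p.2))
    (hρ : Measurable (fun p : Ω × X => ρ p.1 p.2)) {A : ℝ} (hA : ∀ u p, ‖φ u p‖ ≤ A)
    (hB : ∀ u p, ‖ρ u p‖ ≤ A) :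
    ∫⁻ q, ∫⁻ p, ENNReal.ofReal (‖∫ u, φ u p * conj (ρ u q) ∂ν‖ ^ 2) ∂μ ∂μ =
      ENNReal.ofReal ‖∫ w : Ω × Ω, (∫ p, φ w.1 p * conj (φ w.2 p) ∂μ) *
        conj (∫ q, ρ w.1 q * conj (ρ w.2 q) ∂μ) ∂(ν.prod ν)‖ := by
  have hm := th_meas ν hφ hρ
  have hb := th_bd ν hA hB
  have hE := absQ_int ν μ hφ hρ hA hB
  have h1 : ∫⁻ q, ∫⁻ p, ENNReal.ofReal (‖∫ u, φ u p * conj (ρ u q) ∂ν‖ ^ 2) ∂μ ∂μ =
      ENNReal.ofReal (∫ z : X × X, ‖∫ u, φ u z.2 * conj (ρ u z.1) ∂ν‖ ^ 2 ∂(μ.prod μ)) := by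
    have hi : Integrable (fun z : X × X => ‖∫ u, φ u z.2 * conj (ρ u z.1) ∂ν‖ ^ 2)
        (μ.prod μ) := by
      refine Integrable.of_bound (hm.norm.pow 2).aestronglyMeasurable
        ((A * A * ν.real Set.univ) ^ 2) (Filter.Eventually.of_forall fun z => ?_)
      rw [Real.norm_of_nonneg (by positivity)]
      exact pow_le_pow_left₀ (norm_nonneg _) (hb z.1 z.2) 2
    rw [ofReal_integral_eq_lintegral_ofReal hi (Filter.Eventually.of_forall fun z => by positivity)]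
    exact (lpr μ μ (fun z : X × X => ENNReal.ofReal (‖∫ u, φ u z.2 * conj (ρ u z.1) ∂ν‖ ^ 2))
      (hm.measurable.norm.pow_const 2).ennreal_ofReal).symm
  rw [h1]
  have h2 : ((∫ z : X × X, ‖∫ u, φ u z.2 * conj (ρ u z.1) ∂ν‖ ^ 2 ∂(μ.prod μ) : ℝ) : ℂ) =
      ∫ w : Ω × Ω, (∫ p, φ w.1 p * conj (φ w.2 p) ∂μ) *
        conj (∫ q, ρ w.1 q * conj (ρ w.2 q) ∂μ) ∂(ν.prod ν) := by
    rw [← integral_complex_ofReal]
    have h3 : ∀ z : X × X, (((‖∫ u, φ u z.2 * conj (ρ u z.1) ∂ν‖ ^ 2 : ℝ)) : ℂ) =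
        ∫ w : Ω × Ω, (φ w.1 z.2 * conj (ρ w.1 z.1)) * conj (φ w.2 z.2 * conj (ρ w.2 z.1))
          ∂(ν.prod ν) := by
      intro z
      rw [integral_prod_mul (fun u => φ u z.2 * conj (ρ u z.1))
        (fun u => conj (φ u z.2 * conj (ρ u z.1))), integral_conj, Complex.mul_conj,
        Complex.normSq_eq_norm_sq]
    simp only [h3]
    rw [integral_integral_swap hE]
    exact integral_congr_ae (Filter.Eventually.of_forall fun w => absQ_mul μ w)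
  rw [← h2, Complex.norm_real, Real.norm_of_nonneg (integral_nonneg fun z => by positivity)]

/-- the duality -/
theorem absK (hφ : Measurable (fun p : Ω × X => φ p.1 p.2))
    (hρ : Measurable (fun p : Ω × X => ρ p.1 p.2)) {A : ℝ} (hA : ∀ u p, ‖φ u p‖ ≤ A)
    (hB : ∀ u p, ‖ρ u p‖ ≤ A) {K : X → X → ℂ} (hK : Measurable (fun p : X × X => K p.1 p.2))
    {b : Ω → ℝ} (hb : Measurable b) (hb0 : ∀ u, 0 ≤ b u) {M : ℝ} (hbM : ∀ u, b u ≤ M)
    {S : Set X} (hS : MeasurableSet S)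
    (hop : ∀ q ∈ S, Integrable (K q) μ → ∀ᵐ u ∂ν, ∫ p, K q p * φ u p ∂μ = b u * ρ u q)
    (hfin : ∫⁻ q in S, ∫⁻ p, ENNReal.ofReal (‖K q p‖ ^ 2) ∂μ ∂μ ≠ ⊤) :
    (∫⁻ u, ENNReal.ofReal (b u) * ∫⁻ q in S, ENNReal.ofReal (‖ρ u q‖ ^ 2) ∂μ ∂ν) ^ 2 ≤
      (∫⁻ q in S, ∫⁻ p, ENNReal.ofReal (‖K q p‖ ^ 2) ∂μ ∂μ) *
        ∫⁻ q, ∫⁻ p, ENNReal.ofReal (‖∫ u, φ u p * conj (ρ u q) ∂ν‖ ^ 2) ∂μ ∂μ := by
  have hm := th_meas ν hφ hρ
  have hbd := th_bd ν hA hB
  have hKn : Measurable (fun z : X × X => ENNReal.ofReal ‖K z.1 z.2‖) := hK.norm.ennreal_ofReal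
  have hTn : Measurable (fun z : X × X => ENNReal.ofReal ‖∫ u, φ u z.2 * conj (ρ u z.1) ∂ν‖) :=
    hm.norm.measurable.ennreal_ofReal
  have hKsq : ∀ q : X, Measurable (fun p => ENNReal.ofReal (‖K q p‖ ^ 2)) := fun q =>
    (((hK.comp (measurable_prodMk_left : Measurable (Prod.mk q))).norm).pow_const 2).ennreal_ofReal
  -- almost all points are good
  have hae : ∀ᵐ q ∂(μ.restrict S), ∫⁻ p, ENNReal.ofReal (‖K q p‖ ^ 2) ∂μ < ⊤ := by
    refine ae_lt_top ?_ hfin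
    have h1 : Measurable (fun z : X × X => ENNReal.ofReal (‖K z.1 z.2‖ ^ 2)) :=
      (hK.norm.pow_const 2).ennreal_ofReal
    exact h1.lintegral_prod_right'
  have hpt : ∀ᵐ q ∂(μ.restrict S), ∫⁻ u, ENNReal.ofReal (b u) * ENNReal.ofReal (‖ρ u q‖ ^ 2) ∂ν ≤
      ∫⁻ p, ENNReal.ofReal ‖K q p‖ * ENNReal.ofReal ‖∫ u, φ u p * conj (ρ u q) ∂ν‖ ∂μ := by
    filter_upwards [hae, ae_restrict_mem hS] with q hq hqS
    have hKq : Measurable (K q) := hK.comp (measurable_prodMk_left : Measurable (Prod.mk q))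
    have hKi : Integrable (K q) μ := by
      have h1 : MemLp (K q) 2 μ := by
        rw [memLp_two_iff_integrable_sq_norm hKq.aestronglyMeasurable]
        refine ⟨(hKq.norm.pow_const 2).aestronglyMeasurable, ?_⟩
        refine lt_of_le_of_lt (lintegral_mono fun z => ?_) hq
        rw [← ofReal_norm, Real.norm_of_nonneg (by positivity)]
      exact h1.integrable (by norm_num)
    have hρq : Measurable (fun u => ρ u q) :=
      hρ.comp (measurable_prodMk_right : Measurable (fun u : Ω => (u, q)))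
    have e0 : ∫⁻ u, ENNReal.ofReal (b u) * ENNReal.ofReal (‖ρ u q‖ ^ 2) ∂ν =
        ENNReal.ofReal (∫ u, b u * ‖ρ u q‖ ^ 2 ∂ν) := by
      rw [ofReal_integral_eq_lintegral_ofReal]
      · refine lintegral_congr fun u => ?_
        rw [ENNReal.ofReal_mul (hb0 u)]
      · refine Integrable.of_bound (hb.mul (hρq.norm.pow_const 2)).aestronglyMeasurable
          (M * A ^ 2) (Filter.Eventually.of_forall fun u => ?_)
        rw [Real.norm_of_nonneg (mul_nonneg (hb0 u) (by positivity))]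
        exact mul_le_mul (hbM u) (pow_le_pow_left₀ (norm_nonneg _) (hB u q) 2) (by positivity)
          ((hb0 u).trans (hbM u))
      · exact Filter.Eventually.of_forall fun u => mul_nonneg (hb0 u) (by positivity)
    have e1 : ((∫ u, b u * ‖ρ u q‖ ^ 2 ∂ν : ℝ) : ℂ) =
        ∫ p, K q p * ∫ u, φ u p * conj (ρ u q) ∂ν ∂μ := by
      rw [← integral_complex_ofReal]
      have hi : Integrable (fun z : Ω × X => K q z.2 * (φ z.1 z.2 * conj (ρ z.1 q)))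
          (ν.prod μ) := by
        have h1 : Integrable (fun z : Ω × X => K q z.2) (ν.prod μ) := hKi.comp_snd ν
        refine (h1.bdd_mul (c := A * A) ?_ ?_).congr
          (Filter.Eventually.of_forall fun z => mul_comm _ _)
        · exact (hφ.mul (Complex.continuous_conj.measurable.comp
            (hρ.comp (by fun_prop : Measurable (fun z : Ω × X => (z.1, q)))))).aestronglyMeasurable
        · refine Filter.Eventually.of_forall fun z => ?_
          rw [norm_mul, RCLike.norm_conj]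
          exact mul_le_mul (hA _ _) (hB _ _) (norm_nonneg _) ((norm_nonneg _).trans (hA z.1 z.2))
      have h2 : ∫ u, ∫ p, K q p * (φ u p * conj (ρ u q)) ∂μ ∂ν =
          ∫ p, ∫ u, K q p * (φ u p * conj (ρ u q)) ∂ν ∂μ := integral_integral_swap hi
      have h3 : ∫ p, K q p * ∫ u, φ u p * conj (ρ u q) ∂ν ∂μ =
          ∫ p, ∫ u, K q p * (φ u p * conj (ρ u q)) ∂ν ∂μ := by
        refine integral_congr_ae (Filter.Eventually.of_forall fun p => ?_)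
        exact (integral_const_mul _ _).symm
      rw [h3, ← h2]
      refine integral_congr_ae ?_
      filter_upwards [hop q hqS hKi] with u hu
      have h4 : ∫ p, K q p * (φ u p * conj (ρ u q)) ∂μ =
          (∫ p, K q p * φ u p ∂μ) * conj (ρ u q) := by
        rw [← integral_mul_const]
        refine integral_congr_ae (Filter.Eventually.of_forall fun p => ?_)
        show K q p * (φ u p * conj (ρ u q)) = K q p * φ u p * conj (ρ u q)
        ring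
      rw [h4, hu, mul_assoc, Complex.mul_conj, Complex.normSq_eq_norm_sq]
      push_cast
      rfl
    have h5 : 0 ≤ ∫ u, b u * ‖ρ u q‖ ^ 2 ∂ν :=
      integral_nonneg fun u => mul_nonneg (hb0 u) (by positivity)
    have e2 : (∫ u, b u * ‖ρ u q‖ ^ 2 ∂ν) = ‖∫ p, K q p * ∫ u, φ u p * conj (ρ u q) ∂ν ∂μ‖ := by
      rw [← e1, Complex.norm_real, Real.norm_of_nonneg h5]
    rw [e0, e2, ofReal_norm]
    refine (enorm_integral_le_lintegral_enorm _).trans (le_of_eq ?_)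
    refine lintegral_congr fun p => ?_
    rw [enorm_mul, ofReal_norm, ofReal_norm]
  have hsw : ∫⁻ u, ENNReal.ofReal (b u) * ∫⁻ q in S, ENNReal.ofReal (‖ρ u q‖ ^ 2) ∂μ ∂ν =
      ∫⁻ q in S, ∫⁻ u, ENNReal.ofReal (b u) * ENNReal.ofReal (‖ρ u q‖ ^ 2) ∂ν ∂μ := by
    have h1 : ∀ u, ENNReal.ofReal (b u) * ∫⁻ q in S, ENNReal.ofReal (‖ρ u q‖ ^ 2) ∂μ =
        ∫⁻ q in S, ENNReal.ofReal (b u) * ENNReal.ofReal (‖ρ u q‖ ^ 2) ∂μ := fun u =>
      (lintegral_const_mul' _ _ ENNReal.ofReal_ne_top).symm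
    simp only [h1]
    rw [lintegral_lintegral_swap]
    exact ((hb.comp measurable_fst).ennreal_ofReal.mul
      (hρ.norm.pow_const 2).ennreal_ofReal).aemeasurable
  rw [hsw]
  have h6 : ∫⁻ q in S, ∫⁻ u, ENNReal.ofReal (b u) * ENNReal.ofReal (‖ρ u q‖ ^ 2) ∂ν ∂μ ≤
      ∫⁻ q in S, ∫⁻ p, ENNReal.ofReal ‖K q p‖ *
        ENNReal.ofReal ‖∫ u, φ u p * conj (ρ u q) ∂ν‖ ∂μ ∂μ := lintegral_mono_ae hpt
  refine (pow_le_pow_left' h6 2).trans ?_
  have h7 : ∫⁻ q in S, ∫⁻ p, ENNReal.ofReal ‖K q p‖ *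
        ENNReal.ofReal ‖∫ u, φ u p * conj (ρ u q) ∂ν‖ ∂μ ∂μ =
      ∫⁻ z : X × X, ENNReal.ofReal ‖K z.1 z.2‖ *
        ENNReal.ofReal ‖∫ u, φ u z.2 * conj (ρ u z.1) ∂ν‖ ∂((μ.restrict S).prod μ) := by
    exact (lpr _ _ (fun z : X × X => ENNReal.ofReal ‖K z.1 z.2‖ *
        ENNReal.ofReal ‖∫ u, φ u z.2 * conj (ρ u z.1) ∂ν‖) (hKn.mul hTn)).symm
  rw [h7]
  refine (csl _ hKn hTn).trans ?_
  have h8 : ∫⁻ z : X × X, ENNReal.ofReal ‖K z.1 z.2‖ ^ 2 ∂((μ.restrict S).prod μ) =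
      ∫⁻ q in S, ∫⁻ p, ENNReal.ofReal (‖K q p‖ ^ 2) ∂μ ∂μ := by
    rw [lpr _ _ (fun z : X × X => ENNReal.ofReal ‖K z.1 z.2‖ ^ 2) (hKn.pow_const 2)]
    refine lintegral_congr fun q => lintegral_congr fun p => ?_
    rw [ENNReal.ofReal_pow (norm_nonneg _)]
  have h9 : ∫⁻ z : X × X, ENNReal.ofReal ‖∫ u, φ u z.2 * conj (ρ u z.1) ∂ν‖ ^ 2
      ∂((μ.restrict S).prod μ) ≤
      ∫⁻ q, ∫⁻ p, ENNReal.ofReal (‖∫ u, φ u p * conj (ρ u q) ∂ν‖ ^ 2) ∂μ ∂μ := by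
    rw [lpr _ _ (fun z : X × X => ENNReal.ofReal ‖∫ u, φ u z.2 * conj (ρ u z.1) ∂ν‖ ^ 2)
      (hTn.pow_const 2)]
    refine (lintegral_mono' Measure.restrict_le_self le_rfl).trans (le_of_eq ?_)
    refine lintegral_congr fun q => lintegral_congr fun p => ?_
    rw [ENNReal.ofReal_pow (norm_nonneg _)]
  rw [h8]
  exact mul_le_mul_right h9 _

end

end Pool.Agent.H27.L1.H62.GHK
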